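import Pool.Agent.X58.RP.Main
import Pool.Agent.X69.Ric.InsL
import Pool.Agent.X69.Ric.PatC

/-!
# Additive patterns in the sets of the almost twin pairs with given residues of the pair and of the next pairs

`n` is an almost twin pair (relative to `X`, `r`) if all prime factors of `n` and `n + 2` exceed `X ^ (1 / r)`.
For a class `a` and a list `bs` of `l` classes modulo `M` let `G = G X r M a bs Z` be the set of the almost twin
pairs `n ≡ a` in `(Z, Z + X]` for which the next `l` almost twin pairs are in the classes of `bs`, in this order.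
(1) `G` has at least `c X / (log X) ^ 2` elements.
(2) All but `ε |G|` elements of `G` are centres of additive patterns in `G` with differences up to `D`, of the
number predicted for almost twin pairs without conditions on the residues of the next pairs, up to a constant,
for every `D ≥ (log X) ^ B`.
(3) All the residue patterns `(a, bs)`, even in different intervals, have common difference vectors, and the same
is true for arbitrary subsets `U` of the sets `G` of positive relative density.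

The proof uses the theorem on residues of consecutive pairs of `Pool.Agent.X262` and the theorems on patterns in
dense sets of integers without small prime factors of `Pool.Agent.X26` and `Pool.Agent.X69` (all in this run).
-/

set_option autoImplicit false

namespace Pool.Agent.Results.MP_74f661_nt.CommonPatterns

open Filter

/-- all prime factors of `n` and of `n + 2` are larger than `X ^ (1 / r)` -/
def AlmostTwin (X r n : ℕ) : Prop :=
  ∀ p : ℕ, p.Prime → p ∣ n * (n + 2) → (X : ℝ) ^ (1 / (r : ℝ)) < p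

/-- the next almost twin pairs after `n` are, in this order, in the classes of the list -/
def NextClasses (X r M : ℕ) : List ℕ → ℕ → Prop
  | [], _ => True
  | b :: bs, n => ∃ n' : ℕ, n < n' ∧ AlmostTwin X r n' ∧ n' % M = b ∧
      (∀ m : ℕ, n < m → m < n' → ¬ AlmostTwin X r m) ∧ NextClasses X r M bs n'

/-- the classes `c` modulo `M` for which `c` and `c + 2` are prime to `M` -/
def classes (M : ℕ) : Finset ℕ := (Finset.range M).filter (fun c => Nat.Coprime (c * (c + 2)) M)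

/-- `a` and the `l` members of the list `bs` are such classes -/
def Pattern (M l a : ℕ) (bs : List ℕ) : Prop := a ∈ classes M ∧ bs.length = l ∧ ∀ b ∈ bs, b ∈ classes M

/-- the almost twin pairs `n` in `(Z, Z + X]` in the class `a` modulo `M` for which the next pairs are in the
classes of the list `bs` -/
def G (X r M a : ℕ) (bs : List ℕ) (Z : ℕ) : Set ℕ :=
  {n | n ∈ Set.Ioc Z (Z + X) ∧ AlmostTwin X r n ∧ n % M = a ∧ NextClasses X r M bs n}

/-- The integer `f · d = f 0 * d 0 + f 1 * d 1 + ...`. -/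
def dot {m : ℕ} (f d : Fin m → ℕ) : ℕ := ∑ i, f i * d i

/-- `n` is a centre in `S` for `d`: all the integers `n + f · d` with `|f i| ≤ K` for all `i` are in `S`. -/
def Centre (K : ℕ) (S : Set ℕ) {m : ℕ} (n : ℕ) (d : Fin m → ℕ) : Prop :=
  ∀ f : Fin m → ℤ, (∀ i, |f i| ≤ K) → ∃ s ∈ S, (s : ℤ) = n + ∑ i, f i * (d i : ℤ)

/-- The number of the vectors `d ∈ {1, ..., D} ^ m` for which `n` is a centre in `S`. -/
noncomputable def patterns (K m D : ℕ) (S : Set ℕ) (n : ℕ) : ℕ :=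
  {d : Fin m → ℕ | (∀ i, 1 ≤ d i ∧ d i ≤ D) ∧ Centre K S n d}.ncard

/-- The number of the residues `u` modulo `q` such that `q` divides `n` or `n + 2` for `n = u + f · d` with some
`f ∈ P`. -/
noncomputable def omega {m : ℕ} (d : Fin m → ℕ) (P : Finset (Fin m → ℕ)) (q : ℕ) : ℕ :=
  {u : ℕ | 1 ≤ u ∧ u ≤ q ∧ ∃ f ∈ P, q ∣ u + dot f d ∨ q ∣ u + dot f d + 2}.ncard

/-- The product of the `1 - w q / q` over the primes `q ≤ X`. -/
noncomputable def product (w : ℕ → ℕ) (X : ℕ) : ℝ :=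
  ∏ q ∈ (Finset.Icc 1 X).filter Nat.Prime, (1 - (w q : ℝ) / q)

/-- The number of the `n ∈ S` such that all the `n + f · d`, `f ∈ P`, are in `S`. -/
noncomputable def count (S : Set ℕ) {m : ℕ} (d : Fin m → ℕ) (P : Finset (Fin m → ℕ)) : ℕ :=
  {n : ℕ | n ∈ S ∧ ∀ f ∈ P, n + dot f d ∈ S}.ncard

/-- For all `P ⊆ {0, ..., k - 1} ^ m` with `0 ∈ P`: the integers `f · d`, `f ∈ P`, are different, and for all `j`
the conditions modulo the primes are solvable and the set `U j` contains at least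
`c X ∏ (1 - omega d P q / q)` of the patterns `n + f · d`, `f ∈ P`. -/
def Common {s m : ℕ} (c : ℝ) (k X : ℕ) (U : Fin s → Set ℕ) (d : Fin m → ℕ) : Prop :=
  ∀ P : Finset (Fin m → ℕ), (∀ f ∈ P, ∀ i, f i < k) → (fun _ => 0) ∈ P →
    Set.InjOn (fun f => dot f d) (P : Set (Fin m → ℕ)) ∧ ∀ j, (∀ q : ℕ, q.Prime → omega d P q < q) ∧
      c * (X * product (omega d P) X) ≤ (count (U j) d P : ℝ)

lemma next_iff (X r M : ℕ) (bs : List ℕ) : ∀ n, Pool.Agent.X58.RP.NextClasses X r M bs n ↔ NextClasses X r M bs n := by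
  induction bs with
  | nil => exact fun n => Iff.rfl
  | cons b bs ih =>
    intro n
    unfold Pool.Agent.X58.RP.NextClasses NextClasses
    simp only [ih]
    exact Iff.rfl

open Classical in
lemma G_ncard (X r M a : ℕ) (bs : List ℕ) (Z : ℕ) :
    (G X r M a bs Z).ncard = Pool.Agent.X58.RP.N2 X r M a bs Z X := by
  unfold Pool.Agent.X58.RP.N2
  rw [← Set.ncard_coe_finset]
  congr 1
  ext n
  rw [Finset.mem_coe, Finset.mem_filter, Finset.mem_Ioc, next_iff]
  constructor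
  · rintro ⟨h1, h2, h3, h4⟩
    exact ⟨h1, ⟨h2, h3⟩, h4⟩
  · rintro ⟨h1, ⟨h2, h3⟩, h4⟩
    exact ⟨h1, h2, h3, h4⟩

/-- **Patterns in the sets of almost twin pairs with given residues.** -/
theorem result : classes 4 = {1, 3} ∧ ∀ M l : ℕ, 1 ≤ M → ∃ r₀ : ℕ, 2 ≤ r₀ ∧ ∀ r : ℕ, r₀ ≤ r →
    (∃ c : ℝ, 0 < c ∧ ∀ᶠ X : ℕ in atTop, ∀ (Z a : ℕ) (bs : List ℕ), Pattern M l a bs →
      c * X / Real.log X ^ 2 ≤ ((G X r M a bs Z).ncard : ℝ)) ∧
    (∀ (m K : ℕ) (ε : ℝ), 1 ≤ K → 0 < ε → ∃ c : ℝ, 0 < c ∧ ∃ B : ℕ, ∀ᶠ X : ℕ in atTop,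
      ∀ D : ℕ, Real.log X ^ B ≤ D → D ≤ X → ∀ (Z a : ℕ) (bs : List ℕ), Pattern M l a bs →
        ({n : ℕ | n ∈ G X r M a bs Z ∧ (patterns K m D (G X r M a bs Z) n : ℝ) <
          c * ((D : ℝ) ^ m / Real.log X ^ (2 * ((2 * K + 1) ^ m - 1)))}.ncard : ℝ) ≤
            ε * ((G X r M a bs Z).ncard : ℝ)) ∧
    ∀ (m s k : ℕ) (δ : ℝ), 0 < δ → ∃ c : ℝ, 0 < c ∧ ∃ B : ℕ, ∀ᶠ X : ℕ in atTop,
      ∀ D : ℕ, Real.log X ^ B ≤ D → D ≤ X → ∀ (Z a : Fin s → ℕ) (bs : Fin s → List ℕ) (U : Fin s → Set ℕ),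
        (∀ j, Pattern M l (a j) (bs j)) → (∀ j, U j ⊆ G X r M (a j) (bs j) (Z j)) →
        (∀ j, δ * ((G X r M (a j) (bs j) (Z j)).ncard : ℝ) ≤ ((U j).ncard : ℝ)) →
        c * (D : ℝ) ^ m ≤ ({d : Fin m → ℕ | (∀ i, 1 ≤ d i ∧ d i ≤ D) ∧ Common c k X U d}.ncard : ℝ) := by
  refine ⟨by decide, fun M l hM => ?_⟩
  obtain ⟨r₀, c₀, hr₀, hc₀, h0⟩ := Pool.Agent.X58.RP.low M l hM
  refine ⟨r₀, hr₀, fun r hr => ?_⟩
  have hr2 : 2 ≤ r := hr₀.trans hr
  have hr0 : (0 : ℝ) < 1 / r := by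
    have : (0 : ℝ) < r := by exact_mod_cast (by omega : 0 < r)
    positivity
  have hr1 : (1 : ℝ) / r ≤ 1 := by
    rw [div_le_one (by exact_mod_cast (by omega : 0 < r))]
    exact_mod_cast (by omega : 1 ≤ r)
  have hlow : ∀ᶠ X : ℕ in atTop, ∀ (Z a : ℕ) (bs : List ℕ), Pattern M l a bs →
      c₀ * X / Real.log X ^ 2 ≤ ((G X r M a bs Z).ncard : ℝ) := by
    filter_upwards [h0 r hr] with X hX Z a bs hp
    rw [G_ncard]
    exact hX Z a hp.1 bs hp.2.1 hp.2.2
  have hrough : ∀ (X a : ℕ) (bs : List ℕ) (Z : ℕ), ∀ n ∈ G X r M a bs Z, ∀ q : ℕ, q.Prime →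
      (q ∣ n ∨ q ∣ n + 2) → (X : ℝ) ^ (1 / (r : ℝ)) < q := by
    intro X a bs Z n hn q hq hd
    apply hn.2.1 q hq
    rcases hd with h | h
    · exact h.mul_right _
    · exact h.mul_left _
  have H := Pool.Agent.X69.Ric.InsL.pair 1 le_rfl
  have hR : ∀ q n : ℕ, 1 ≤ n → ((q ∣ n ∨ q ∣ n + 2) ↔
      (q ∣ n ∨ ∃ i : Fin 1, q ∣ Pool.Agent.X69.Ric.InsL.vL (fun _ : Fin 1 => 2 * 1) n i)) := by
    intro q n _
    constructor
    · rintro (h | h)
      · exact Or.inl h
      · exact Or.inr ⟨0, h⟩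
    · rintro (h | ⟨i, h⟩)
      · exact Or.inl h
      · exact Or.inr h
  refine ⟨⟨c₀, hc₀, hlow⟩, fun m K ε hK hε => ?_, fun m s k δ hδ => ?_⟩
  · obtain ⟨c, hc, B, h⟩ := H.typ (fun q n => q ∣ n ∨ q ∣ n + 2) hR m K hK (1 / r) (ε * c₀) hr0 hr1 (by positivity)
    refine ⟨c, hc, B, ?_⟩
    filter_upwards [h, hlow] with X hX hXl D hBD hDX Z a bs hp
    have h1 := hX Z D hBD hDX (G X r M a bs Z) (fun n hn => hn.1) (hrough X a bs Z)
    refine h1.trans ?_
    calc ε * c₀ * X / Real.log X ^ (1 + 1) = ε * (c₀ * X / Real.log X ^ 2) := by ring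
      _ ≤ _ := by
        have := hXl Z a bs hp
        gcongr
  · obtain ⟨c, hc, B, h⟩ := Pool.Agent.X69.Ric.PSys.common (M := s) (fun _ => H)
      (fun _ q n => q ∣ n ∨ q ∣ n + 2) (fun _ => hR) m k (1 / r) (δ * c₀) hr0 hr1 (by positivity)
    refine ⟨c, hc, B, ?_⟩
    filter_upwards [h, hlow] with X hX hXl D hBD hDX Z a bs U hp hU hUc
    refine hX D hBD hDX Z U (fun j n hn => (hU j hn).1)
      (fun j n hn => hrough X (a j) (bs j) (Z j) n (hU j hn)) (fun j => ?_)
    refine le_trans ?_ (hUc j)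
    calc δ * c₀ * X / Real.log X ^ (1 + 1) = δ * (c₀ * X / Real.log X ^ 2) := by ring
      _ ≤ _ := by
        have := hXl (Z j) (a j) (bs j) (hp j)
        gcongr

end Pool.Agent.Results.MP_74f661_nt.CommonPatterns
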