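import Pool.Agent.X220.FP.Cor
import Pool.Agent.X220.FP.Alg

/-!
# Almost prime twins in residue classes and short intervals with prescribed fractional parts

Let `P_1, …, P_s` be real polynomials of degree at most `k ≥ 1` whose vector of the coefficients of `x ^ k` is of finite
type: the distance of `h_1 α_1 + … + h_s α_s` to the nearest integer is at least `c₀ / |h| ^ τ` for all nonzero integral
vectors `h` (for example `α_1, …, α_s` are algebraic and `1, α_1, …, α_s` are linearly independent over the rational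
numbers). We consider the pairs `w n + a`, `w n + a + 2`, for `w ≥ 1` coprime to `a (a + 2)`, for the integers `n` of an ARBITRARY short interval
`(M, M + H]` for which all the fractional parts of `P_i(n) - u_i` are less than `ρ_i`, where the `ρ_i` may be as small as
`H ^ (-δ)`.
* If `M + H ≤ H ^ B` and `w, a ≤ H ^ B`, where `B` is arbitrary, the number of the `n` for which all the values have a bounded
  number of prime factors, all greater than `H ^ δ`, has the expected order of magnitude.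
* The number of the `n` for which all of them are primes is at most of this order.
* The number of the `n` for which they have no prime factor up to `y` is given by an asymptotic formula.

All this is uniform in the polynomials, in `M`, in the boxes, and in the forms. The proof combines a sieve which is uniform
in the removed residue classes (in the starting files), Weyl's inequality, and Liouville's inequality for norms.
-/

set_option autoImplicit false

namespace Pool.Agent.Results.MP_74f661_nt.FractionalParts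

open Finset Polynomial

/-- the vector `α` is of finite type, with the constants `c₀` and `τ` -/
def FiniteType {s : ℕ} (c₀ : ℝ) (τ : ℕ) (α : Fin s → ℝ) : Prop :=
  ∀ h : Fin s → ℤ, h ≠ 0 → ∀ a : ℤ, c₀ ≤ (∑ i, |(h i : ℝ)|) ^ τ * |(∑ i, h i * α i) - a|

/-- all the fractional parts of `P_i(n) - u_i` are less than `ρ_i` -/
def InBox {s : ℕ} (P : Fin s → ℝ[X]) (u ρ : Fin s → ℝ) (n : ℕ) : Prop :=
  ∀ i, Int.fract ((P i).eval (n : ℝ) - u i) < ρ i

/-- `m ≠ 0` has at most `r` prime factors, counted with multiplicity, all of them greater than `x`. -/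
def AlmostPrime (r : ℕ) (x : ℝ) (m : ℕ) : Prop :=
  m ≠ 0 ∧ m.primeFactorsList.length ≤ r ∧ ∀ q : ℕ, q.Prime → q ∣ m → x < q

/-- the pairs `w n + a`, `w n + a + 2`, for `w ≥ 1` coprime to `a (a + 2)`, -/
def form (w a : ℕ) (n : ℕ) : Fin 2 → ℤ := ![(w : ℤ) * n + a, (w : ℤ) * n + a + 2]

/-- the number of the `n` in `(M, M + H]` with the property `R` for which all the values are almost primes -/
noncomputable def almost (w a : ℕ) (r : ℕ) (x : ℝ) (M H : ℕ) (R : ℕ → Prop) : ℕ :=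
  Set.ncard {n : ℕ | M < n ∧ n ≤ M + H ∧ R n ∧ ∀ i, AlmostPrime r x (form w a n i).natAbs}

/-- the number of the `n` in `(M, M + H]` with the property `R` for which all the values are primes -/
noncomputable def primes (w a : ℕ) (M H : ℕ) (R : ℕ → Prop) : ℕ :=
  Set.ncard {n : ℕ | M < n ∧ n ≤ M + H ∧ R n ∧ ∀ i, (form w a n i).natAbs.Prime}

/-- the number of the `n` in `(M, M + H]` with the property `R` for which the values have no prime factor up to `y` -/
noncomputable def rough (w a : ℕ) (y M H : ℕ) (R : ℕ → Prop) : ℕ :=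
  Set.ncard {n : ℕ | M < n ∧ n ≤ M + H ∧ R n ∧ ∀ q : ℕ, q.Prime → q ≤ y → ∀ i, ¬ (q : ℤ) ∣ form w a n i}

/-- the product over the primes `q ≤ y` of `1 - ν(q) / q`, where `ν(q)` is the number of the residues `n` modulo `q` for
which one of the values is divisible by `q` -/
noncomputable def V (w a : ℕ) (y : ℕ) : ℝ :=
  ∏ q ∈ (Icc 1 y).filter Nat.Prime, (1 - (Set.ncard {n : ℕ | n < q ∧ ∃ i, (q : ℤ) ∣ form w a n i} : ℝ) / q)

/-- the bounds for the interval `(M, M + H]` and the property `R`, with the expected number `X` -/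
def Bounds (w a : ℕ) (T r : ℕ) (δ c c' C : ℝ) (B M H : ℕ) (R : ℕ → Prop) (X : ℝ) : Prop :=
  (M + H ≤ T ^ B → w ≤ T ^ B → a ≤ T ^ B → c * (X * V w a T) ≤ almost w a r ((T : ℝ) ^ δ) M H R ∧
    c' * X / Real.log T ^ 2 ≤ almost w a r ((T : ℝ) ^ δ) M H R) ∧
  (primes w a M H R : ℝ) ≤ C * (X * V w a T)

/-- the asymptotic formula for the interval `(M, M + H]` and the property `R`, with the expected number `X` -/
def Rough (w a : ℕ) (η : ℝ) (M H y : ℕ) (R : ℕ → Prop) (X : ℝ) : Prop :=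
  |(rough w a y M H R : ℝ) - X * V w a y| ≤ η * (X * V w a y)

/-- the coefficients of the forms -/
def ca (w a : ℕ) : Fin 2 → ℤ := ![(w : ℤ), (w : ℤ)]

/-- the constants of the forms -/
def cb (w a : ℕ) : Fin 2 → ℤ := ![(a : ℤ), (a : ℤ) + 2]

lemma form_eq (w a : ℕ) (n : ℕ) (i : Fin 2) : ca w a i * (n : ℤ) + cb w a i = form w a n i := by
  fin_cases i
  · show ((w : ℤ)) * (n : ℤ) + ((a : ℤ)) = (w : ℤ) * n + a
    ring
  · show ((w : ℤ)) * (n : ℤ) + ((a : ℤ) + 2) = (w : ℤ) * n + a + 2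
    ring

lemma V_eq (w a : ℕ) (y : ℕ) : Pool.Agent.X55.Fam.VL (ca w a) (cb w a) y = V w a y := by
  unfold Pool.Agent.X55.Fam.VL V
  simp only [form_eq]

lemma ca_ne {w a : ℕ} (h : 1 ≤ w ∧ Nat.Coprime (a * (a + 2)) w) (i : Fin 2) : ca w a i ≠ 0 := by
  fin_cases i
  · show (w : ℤ) ≠ 0
    have := h.1
    omega
  · show (w : ℤ) ≠ 0
    have := h.1
    omega

lemma adm {w a : ℕ} (h : 1 ≤ w ∧ Nat.Coprime (a * (a + 2)) w) (q : ℕ) (hq : q.Prime) :
    ∃ n : ℕ, ∀ i, ¬ (q : ℤ) ∣ ca w a i * (n : ℤ) + cb w a i := by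
  have : Fact q.Prime := ⟨hq⟩
  have key : ∃ j : ℕ, ¬ (q : ℤ) ∣ (w : ℤ) * (j : ℤ) + a ∧ ¬ (q : ℤ) ∣ (w : ℤ) * (j : ℤ) + (a + 2) := by
    by_cases hw : q ∣ w
    · refine ⟨0, fun h2 => ?_, fun h2 => ?_⟩
      · have h3 : q ∣ w * 0 + a := by exact_mod_cast h2
        have h4 : q ∣ a * (a + 2) := by
          rw [mul_zero, zero_add] at h3
          exact h3.mul_right _
        have := Nat.dvd_gcd h4 hw
        rw [Nat.Coprime.gcd_eq_one h.2] at this
        exact hq.one_lt.ne' (Nat.dvd_one.1 this)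
      · have h3 : q ∣ w * 0 + (a + 2) := by exact_mod_cast h2
        have h4 : q ∣ a * (a + 2) := by
          rw [mul_zero, zero_add] at h3
          exact h3.mul_left _
        have := Nat.dvd_gcd h4 hw
        rw [Nat.Coprime.gcd_eq_one h.2] at this
        exact hq.one_lt.ne' (Nat.dvd_one.1 this)
    · have hu : ((w : ℕ) : ZMod q) ≠ 0 := by
        rw [Ne, ZMod.natCast_eq_zero_iff]; exact hw
      refine ⟨((-1 - (a : ZMod q)) * ((w : ℕ) : ZMod q)⁻¹).val, fun h2 => ?_, fun h2 => ?_⟩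
      · rw [← ZMod.intCast_zmod_eq_zero_iff_dvd] at h2
        push_cast at h2
        rw [ZMod.natCast_zmod_val] at h2
        rw [mul_comm _ ((w : ZMod q)⁻¹), ← mul_assoc, mul_inv_cancel₀ hu, one_mul] at h2
        have h3 : (1 : ZMod q) = 0 := by linear_combination -h2
        exact one_ne_zero h3
      · rw [← ZMod.intCast_zmod_eq_zero_iff_dvd] at h2
        push_cast at h2
        rw [ZMod.natCast_zmod_val] at h2
        rw [mul_comm _ ((w : ZMod q)⁻¹), ← mul_assoc, mul_inv_cancel₀ hu, one_mul] at h2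
        have h3 : (1 : ZMod q) = 0 := by linear_combination h2
        exact one_ne_zero h3
  obtain ⟨j, hj1, hj2⟩ := key
  refine ⟨j, fun i => ?_⟩
  fin_cases i
  · exact hj1
  · exact hj2

lemma conv {w a : ℕ} {T r : ℕ} {δ c C c1 : ℝ} {B M H : ℕ} {R : ℕ → Prop} {X : ℝ} (hT : 3 ≤ T)
    (hc : 0 < c) (hX : 0 ≤ X) (hlo : c1 / Real.log T ^ 2 ≤ V w a T)
    (h : Pool.Agent.X55.Fam.BothL (ca w a) (cb w a) T r δ c C (B + 2) M H R X) :
    Bounds w a T r δ c (c * c1) C B M H R X := by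
  obtain ⟨h1, h2⟩ := h
  unfold Pool.Agent.X55.Fam.LoT at h1
  unfold Pool.Agent.X55.Fam.UpL at h2
  rw [V_eq] at h1 h2
  simp only [form_eq] at h1 h2
  have hT1 : 1 ≤ T := by omega
  have hTB : 1 ≤ T ^ B := Nat.one_le_pow _ _ hT1
  have hBB : 9 * T ^ B ≤ T ^ (B + 2) := by
    rw [pow_add, mul_comm]
    exact Nat.mul_le_mul_left _ (by nlinarith)
  refine ⟨fun hMH hs0 hs1 => ?_, h2⟩
  have k1 := h1 (by omega) (fun i => by
    fin_cases i
    · show ((w : ℤ)).natAbs ≤ _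
      omega
    · show ((w : ℤ)).natAbs ≤ _
      omega) (fun i => by
    fin_cases i
    · show ((a : ℤ)).natAbs ≤ _
      omega
    · show ((a : ℤ) + 2).natAbs ≤ _
      omega)
  refine ⟨k1, le_trans ?_ k1⟩
  calc c * c1 * X / Real.log T ^ 2 = c * (X * (c1 / Real.log T ^ 2)) := by ring
    _ ≤ _ := by gcongr

theorem result : (∀ (s k τ : ℕ) (c₀ : ℝ), 1 ≤ k → 0 < c₀ →
    (∀ B : ℕ, ∃ (r : ℕ) (δ c c' C : ℝ) (H₀ : ℕ), 0 < δ ∧ 0 < c ∧ 0 < c' ∧ 0 < C ∧
      ∀ H : ℕ, H₀ ≤ H → ∀ P : Fin s → ℝ[X], (∀ i, (P i).natDegree ≤ k) → FiniteType c₀ τ (fun i => (P i).coeff k) →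
      ∀ u ρ : Fin s → ℝ, (∀ i, (H : ℝ) ^ (-δ) ≤ ρ i ∧ ρ i ≤ 1) → ∀ w a : ℕ, 1 ≤ w ∧ Nat.Coprime (a * (a + 2)) w → ∀ M : ℕ, 
      Bounds w a H r δ c c' C B M H (InBox P u ρ) (H * ∏ i, ρ i)) ∧
    (∀ η : ℝ, 0 < η → ∃ (δ : ℝ) (H₀ : ℕ), 0 < δ ∧
      ∀ H : ℕ, H₀ ≤ H → ∀ P : Fin s → ℝ[X], (∀ i, (P i).natDegree ≤ k) → FiniteType c₀ τ (fun i => (P i).coeff k) →
      ∀ u ρ : Fin s → ℝ, (∀ i, (H : ℝ) ^ (-δ) ≤ ρ i ∧ ρ i ≤ 1) → ∀ w a : ℕ, 1 ≤ w ∧ Nat.Coprime (a * (a + 2)) w → ∀ M : ℕ, 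
      ∀ y : ℕ, 3 ≤ y → (y : ℝ) ≤ (H : ℝ) ^ δ → Rough w a η M H y (InBox P u ρ) (H * ∏ i, ρ i))) ∧
    -- algebraic numbers
    (∀ (s : ℕ) (α : Fin s → ℝ), (∀ i, IsAlgebraic ℚ (α i)) →
      (∀ (h : Fin s → ℤ) (a : ℤ), ∑ i, (h i : ℝ) * α i = a → h = 0) →
      ∃ (c₀ : ℝ) (τ : ℕ), 0 < c₀ ∧ FiniteType c₀ τ α) := by
  classical
  refine ⟨fun s k τ c₀ hk hc₀ => ⟨?_, ?_⟩, fun s α hα hind => Pool.Agent.X220.FP.liouville_vec s α hα hind⟩
  · intro B
    obtain ⟨r, δ, c, C, H₀, hδ, hc, hC, h⟩ := Pool.Agent.X220.FP.fp_lin s k τ hk c₀ hc₀ 2 (by norm_num) (B + 2)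
    obtain ⟨c1, hc1, hlo⟩ := Pool.Agent.X55.Fam.VQ_low 2 (by norm_num)
    refine ⟨r, δ, c, c * c1, C, max H₀ 3, hδ, hc, by positivity, hC, ?_⟩
    intro H hH P hP hFT u ρ hρ w a hcond M 
    have h3 : 3 ≤ H := (le_max_right _ _).trans hH
    have hX : 0 ≤ (H : ℝ) * ∏ i, ρ i := mul_nonneg (Nat.cast_nonneg _)
      (prod_nonneg fun i _ => le_trans (by positivity) (hρ i).1)
    have had := adm hcond
    exact conv h3 hc hX (by
      rw [← V_eq, Pool.Agent.X55.Fam.VL_eq]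
      exact hlo _ (Pool.Agent.X55.Fam.adm_lin (ca w a) (cb w a) had) H h3)
      (h H ((le_max_left _ _).trans hH) (ca w a) (cb w a) (ca_ne hcond) had P hP hFT u ρ hρ M)
  · intro η hη
    obtain ⟨δ, H₀, hδ, h⟩ := Pool.Agent.X220.FP.fp_linA s k τ hk c₀ hc₀ 2 (by norm_num) η hη
    refine ⟨δ, H₀, hδ, ?_⟩
    intro H hH P hP hFT u ρ hρ w a hcond M  y hy hyH
    have key := h H hH (ca w a) (cb w a) (adm hcond) P hP hFT u ρ hρ M y hy hyH
    unfold Pool.Agent.X55.Fam.AsL at key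
    rw [V_eq] at key
    simp only [form_eq] at key
    exact key

end Pool.Agent.Results.MP_74f661_nt.FractionalParts
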