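import Pool.Agent.X69.Ric.Pack

/-!
The pairs `(n, n + 2)` without small prime factors. Limit points of the vectors of consecutive normalised gaps.
-/

set_option autoImplicit false

namespace Pool.Agent.Results.MP_74f661_nt.GapLimitVectors

open Filter MeasureTheory

/-- The pair `(n, n + 2)`. -/
def f (n : ℕ) : Fin 2 → ℕ := ![n, n + 2]

/-- `Many g A`: for some `c > 0` and all large `X`, the set `A` has at least `c X / (log X) ^ g` elements in `[1, X]`. -/
def Many (g : ℕ) (A : Set ℕ) : Prop :=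
  ∃ c : ℝ, 0 < c ∧ ∀ᶠ X : ℕ in atTop, c * X / Real.log X ^ g ≤ ((A ∩ Set.Icc 1 X).ncard : ℝ)

/-- No prime factor of a component of `f n` is less than `n ^ δ`. -/
def Rough {g : ℕ} (f : ℕ → Fin g → ℕ) (δ : ℝ) (n : ℕ) : Prop :=
  ∀ i, ∀ p : ℕ, p.Prime → p ∣ f n i → (n : ℝ) ^ δ ≤ p

/-- The `n ≥ 1` such that all the components of `f n` have at most `r` prime factors, counted with multiplicity,
none of them less than `n ^ (1 / r)`. -/
def Almost {g : ℕ} (f : ℕ → Fin g → ℕ) (r : ℕ) : Set ℕ :=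
  {n | 1 ≤ n ∧ ∀ i, ArithmeticFunction.cardFactors (f n i) ≤ r ∧
    ∀ p : ℕ, p.Prime → p ∣ f n i → (n : ℝ) ^ (1 / (r : ℝ)) ≤ p}

/-- The vector of `m` consecutive normalised gaps `(a (k+i+1) - a (k+i)) / (log a (k+i)) ^ g`, `0 ≤ i < m`, of the
set `A = {a 0 < a 1 < ...}`. -/
noncomputable def gaps (g : ℕ) (A : Set ℕ) (m k : ℕ) : Fin m → ℝ := fun i =>
  ((Nat.nth (· ∈ A) (k + i + 1) : ℝ) - Nat.nth (· ∈ A) (k + i)) / Real.log (Nat.nth (· ∈ A) (k + i)) ^ g

/-- The set of the limit points in `ℝ ^ m` of the vectors of `m` consecutive normalised gaps of `A`. -/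
def LimitVectors (g : ℕ) (A : Set ℕ) (m : ℕ) : Set (Fin m → ℝ) := {t | MapClusterPt t atTop (gaps g A m)}

theorem result :
    (∀ A : Set ℕ, ∀ δ : ℝ, 0 < δ → (∀ n ∈ A, Rough f δ n) → Many 2 A →
      ∀ m : ℕ, 1 ≤ m → 0 < volume (LimitVectors 2 A m)) ∧
    ∃ r : ℕ, 1 ≤ r ∧ Many 2 (Almost f r) ∧ ∀ m : ℕ, 1 ≤ m → 0 < volume (LimitVectors 2 (Almost f r) m) := by
  refine Pool.Agent.X69.Ric.pack_gaps (by omega) (a := ![1, 1]) (b := ![0, 2]) (f := f) (by decide) (by decide) ?_ ?_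
  · intro p hp
    have h1 : ¬ (p : ℤ) ∣ 1 := fun h => hp.one_lt.ne' (Nat.dvd_one.1 (by exact_mod_cast h))
    rcases eq_or_ne p 3 with rfl | h3
    · exact ⟨2, by rw [Fin.forall_fin_two]; constructor <;> norm_num⟩
    · refine ⟨1, ?_⟩
      rw [Fin.forall_fin_two]
      refine ⟨by simpa using h1, ?_⟩
      intro h
      apply h3
      have h2 : (p : ℤ) ∣ ((3 : ℕ) : ℤ) := by simpa using h
      exact (Nat.prime_dvd_prime_iff_eq hp (by norm_num)).1 (by exact_mod_cast h2)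
  · intro n hn i
    fin_cases i <;> simp [f]

end Pool.Agent.Results.MP_74f661_nt.GapLimitVectors
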